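import Pool.Agent.H27.PM.Star
import Pool.Agent.H13.TC.Glue

/-!
# Sparse planar graphs: two colours; a suitable vertex set besides: three colours

Let `D` be a finite oriented graph and `X` a set of vertices such that no directed cycle of `D`
lies in `X`, no directed cycle of `D` alternates between `X` and its complement, and `D` outside
`X` is a subgraph of a planar graph and either has no triangle or has at most `2|T| - 3` arcs
inside every set `T` of at least two vertices. Then `D` has an acyclic `3`-dicolouring in which
`X` is one of the colour classes. For empty `X` this is an acyclic dicolouring with two colours.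

The two colours of the vertices outside `X` come from a cut: after the reversal of all arcs between
the two classes, `D` outside `X` has no directed cycle. Such a cut is found by induction, by
contracting an edge which keeps the graph sparse.
-/

set_option autoImplicit false

namespace Pool.Agent.Results.MP_da50b6_co.SparsePlanar

open Relation

/-- `v 0, v 1, ..., v (m-1)` is a directed cycle of the digraph with arc relation `D`. -/
def IsDirectedCycle {V : Type*} (D : V → V → Prop) (m : ℕ) (v : ℕ → V) : Prop :=
  3 ≤ m ∧ Set.InjOn v (Set.Iio m) ∧ (∀ t, t + 1 < m → D (v t) (v (t + 1))) ∧ D (v (m - 1)) (v 0)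

/-- All vertices of the cycle have the same colour. -/
def IsMonochromatic {V : Type*} {k : ℕ} (φ : V → Fin k) (m : ℕ) (v : ℕ → V) : Prop :=
  ∀ s < m, ∀ t < m, φ (v s) = φ (v t)

/-- The cycle has even length and alternates between the colours `i` and `j`. -/
def Alternates {V : Type*} {k : ℕ} (φ : V → Fin k) (i j : Fin k) (m : ℕ) (v : ℕ → V) : Prop :=
  Even m ∧ ∀ t < m, φ (v t) = if Even t then i else j

/-- `φ` is an acyclic `k`-dicolouring of the digraph with arc relation `D`. -/
def IsAcyclicDicolouring {V : Type*} (D : V → V → Prop) {k : ℕ} (φ : V → Fin k) : Prop :=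
  (∀ m v, IsDirectedCycle D m v → ¬ IsMonochromatic φ m v) ∧
  (∀ m v (i j : Fin k), i ≠ j → IsDirectedCycle D m v → ¬ Alternates φ i j m v)

/-- A rotation system of `G`: a permutation `next` of the darts (oriented edges) which, at every
vertex, permutes the darts leaving that vertex cyclically. -/
structure RotationSystem {V : Type*} (G : SimpleGraph V) where
  /-- the dart following a given one in the rotation at its first vertex -/
  next : Equiv.Perm G.Dart
  /-- `next` keeps the first vertex -/
  fst_next : ∀ d, (next d).fst = d.fst
  /-- the darts leaving a vertex form one cycle of `next` -/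
  cyclic : ∀ d d' : G.Dart, d.fst = d'.fst → ∃ n : ℕ, (next ^ n) d = d'

/-- The permutation of the darts which walks along the faces: reverse the dart, then take the next
dart in the rotation. The facial walks are the cycles of this permutation. -/
def RotationSystem.faceStep {V : Type*} {G : SimpleGraph V} (R : RotationSystem G) :
    Equiv.Perm G.Dart :=
  R.next * Function.Involutive.toPerm SimpleGraph.Dart.symm SimpleGraph.Dart.symm_involutive

/-- The number of faces: the number of facial walks, an isolated vertex having one face. -/
noncomputable def RotationSystem.numFaces {V : Type*} {G : SimpleGraph V}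
    (R : RotationSystem G) : ℕ :=
  Nat.card (Quotient (Equiv.Perm.SameCycle.setoid R.faceStep)) +
    Nat.card {v : V // ∀ w, ¬ G.Adj v w}

/-- The finite graph `G` is planar: it has a rotation system satisfying Euler's formula
`|V| - |E| + |F| = 2` in every connected component, added up over all components (the sum of the
genera is `0`; the inequality `≤` always holds). -/
def IsPlanar {V : Type*} (G : SimpleGraph V) : Prop :=
  ∃ R : RotationSystem G, (Nat.card V : ℤ) - Nat.card G.edgeSet + R.numFaces =
    2 * Nat.card G.ConnectedComponent

/-- `D` has no triangle outside `X`. -/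
def TriangleFreeOff {V : Type*} (D : V → V → Prop) (X : Set V) : Prop :=
  ∀ x y z : V, x ∉ X → y ∉ X → z ∉ X → (D x y ∨ D y x) → (D y z ∨ D z y) → (D x z ∨ D z x) → False

/-- Every set `T` of at least two vertices outside `X` contains at most `2|T| - 3` arcs. -/
def SparseOff {V : Type*} (D : V → V → Prop) (X : Set V) : Prop :=
  ∀ T : Finset V, (∀ t ∈ T, t ∉ X) → 2 ≤ T.card →
    Nat.card {p : V × V // p.1 ∈ T ∧ p.2 ∈ T ∧ D p.1 p.2} + 3 ≤ 2 * T.card

theorem isPlanar_tor {V : Type*} {G : SimpleGraph V} (h : IsPlanar G) :
    Pool.Agent.H29.Tor.IsPlanar G := by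
  obtain ⟨R, hR⟩ := h
  refine ⟨⟨R.next, R.fst_next, R.cyclic⟩, ?_⟩
  unfold Pool.Agent.H29.Tor.RotationSystem.GenusLE
  have e : (⟨R.next, R.fst_next, R.cyclic⟩ : Pool.Agent.H29.Tor.RotationSystem G).numFaces =
      R.numFaces := rfl
  rw [e, hR]
  simp

/-- following the cycle -/
theorem transGen_of_cycle {V : Type*} {D : V → V → Prop} (E : V → V → Prop) {m : ℕ} {v : ℕ → V}
    (h : IsDirectedCycle D m v) (h1 : ∀ t, t + 1 < m → E (v t) (v (t + 1)))
    (h2 : E (v (m - 1)) (v 0)) : TransGen E (v 0) (v 0) := by
  have key : ∀ t, t < m → ReflTransGen E (v 0) (v t) := by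
    intro t
    induction t with
    | zero => exact fun _ => ReflTransGen.refl
    | succ t ih => exact fun ht => (ih (by omega)).tail (h1 t ht)
  have hm := h.1
  exact TransGen.tail' (key (m - 1) (by omega)) h2

/-- following the cycle backwards -/
theorem transGen_of_cycle_rev {V : Type*} {D : V → V → Prop} (E : V → V → Prop) {m : ℕ}
    {v : ℕ → V} (h : IsDirectedCycle D m v) (h1 : ∀ t, t + 1 < m → E (v (t + 1)) (v t))
    (h2 : E (v 0) (v (m - 1))) : TransGen E (v 0) (v 0) := by
  have := transGen_of_cycle (fun x y => E y x) h h1 h2
  exact (transGen_swap (r := E) (a := v 0) (b := v 0)).1 this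

/-- the sum of two different elements of `ZMod 2` -/
theorem zmod2_add_eq_one {a b : ZMod 2} (h : a ≠ b) : a + b = 1 := by
  revert h
  revert a b
  decide

theorem zmod2_cases (a : ZMod 2) : a = 0 ∨ a = 1 := by
  revert a
  decide

theorem exists_ori (W : Type*) : ∃ o : W → W → ZMod 2, ∀ x y, x ≠ y → o x y + o y x = 1 := by
  classical
  refine ⟨fun x y => if WellOrderingRel x y then 1 else 0, ?_⟩
  intro x y hxy
  rcases trichotomous_of WellOrderingRel x y with h | h | h
  · have h' : ¬ WellOrderingRel y x := fun h' => asymm_of WellOrderingRel h h'
    simp [h, h']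
  · exact absurd h hxy
  · have h' : ¬ WellOrderingRel x y := fun h' => asymm_of WellOrderingRel h h'
    simp [h, h']

open Pool.Agent.H27.PM in
/-- Let `D` be a finite oriented graph, `G` a planar graph on the same vertices and `X` a set of
vertices such that every arc of `D` outside `X` is an edge of `G` (for example: `D` planar and `G`
its underlying graph). Suppose that no directed cycle of `D` lies in `X`, that no directed cycle of
`D` of even length has its vertices alternately inside and outside `X`, and that `D` outside `X`
has no triangle or is sparse. Then `D` has an acyclic `3`-dicolouring with colour class `X`. -/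
theorem result : ∀ (V : Type) [Finite V] (D : V → V → Prop), (∀ u v, D u v → ¬ D v u) →
    ∀ (G : SimpleGraph V), IsPlanar G → ∀ X : Set V,
      (∀ u v, u ∉ X → v ∉ X → D u v → G.Adj u v) →
      (∀ m v, IsDirectedCycle D m v → ¬ ∀ t < m, v t ∈ X) →
      (∀ m v, IsDirectedCycle D m v → Even m → ¬ ∀ t, t + 1 < m → (v t ∈ X ↔ v (t + 1) ∉ X)) →
      (TriangleFreeOff D X ∨ SparseOff D X) →
      ∃ φ : V → Fin 3, IsAcyclicDicolouring D φ ∧ ∀ v, φ v = 2 ↔ v ∈ X := by
  classical
  intro V _ D hD G hG X hDG hX1 hX2 hsp
  have := Fintype.ofFinite V
  obtain ⟨o'', ho''⟩ := exists_ori V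
  let o : V → V → ZMod 2 := fun u v => if D u v then 1 else if D v u then 0 else o'' u v
  have ho : ∀ x y, x ≠ y → o x y + o y x = 1 := by
    intro x y hxy
    by_cases h1 : D x y
    · have h2 : ¬ D y x := hD _ _ h1
      simp [o, h1, h2]
    · by_cases h2 : D y x
      · simp [o, h1, h2]
      · simp only [o, h1, h2, if_false]
        exact ho'' x y hxy
  have ho1 : ∀ u v, D u v → o u v = 1 := by
    intro u v h
    simp [o, h]
  have ho0 : ∀ u v, D u v → o v u = 0 := by
    intro u v h
    have := hD _ _ h
    simp [o, h, this]
  have hne : ∀ u v, D u v → u ≠ v := by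
    rintro u v h rfl
    exact hD _ _ h h
  let H : SimpleGraph V :=
    { Adj := fun x y => x ∉ X ∧ y ∉ X ∧ (D x y ∨ D y x)
      symm := ⟨fun x y h => ⟨h.2.1, h.1, h.2.2.symm⟩⟩
      loopless := ⟨fun x h => by
        rcases h.2.2 with h | h
        · exact hD _ _ h h
        · exact hD _ _ h h⟩ }
  have hHG : H ≤ G := by
    rintro x y ⟨hx, hy, h | h⟩
    · exact hDG _ _ hx hy h
    · exact (hDG _ _ hy hx h).symm
  have hHsp : H.CliqueFree 3 ∨
      ∀ S : Finset V, 2 ≤ S.card → (edgesIn H S).card + 3 ≤ 2 * S.card := by
    rcases hsp with h | h
    · left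
      intro T hT
      rw [SimpleGraph.is3Clique_iff] at hT
      obtain ⟨x, y, z, hxy, hxz, hyz, -⟩ := hT
      exact h x y z hxy.1 hxy.2.1 hyz.2.1 hxy.2.2 hyz.2.2 hxz.2.2
    · right
      intro S hS
      -- restrict to the vertices of `S` outside `X`
      let T := S.filter (fun v => v ∉ X)
      have hle : T.card ≤ S.card := Finset.card_filter_le _ _
      have he : edgesIn H S = edgesIn H T := by
        ext e
        simp only [edgesIn, Finset.mem_filter, Finset.mem_univ, true_and]
        constructor
        · rintro ⟨h1, h2⟩
          refine ⟨h1, fun v hv => ?_⟩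
          rw [Finset.mem_filter]
          refine ⟨h2 v hv, ?_⟩
          obtain ⟨w, rfl⟩ := Sym2.mem_iff_exists.1 hv
          exact (h1 : H.Adj v w).1
        · rintro ⟨h1, h2⟩
          exact ⟨h1, fun v hv => (Finset.mem_filter.1 (h2 v hv)).1⟩
      rw [he]
      by_cases h2 : 2 ≤ T.card
      · have h3 := h T (fun t ht => (Finset.mem_filter.1 ht).2) h2
        have h4 : (edgesIn H T).card ≤
            Nat.card {p : V × V // p.1 ∈ T ∧ p.2 ∈ T ∧ D p.1 p.2} := by
          have hf : (edgesIn H T).card = Nat.card {e // e ∈ edgesIn H T} := by
            rw [Nat.card_eq_fintype_card, Fintype.card_coe]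
          rw [hf]
          let f : {p : V × V // p.1 ∈ T ∧ p.2 ∈ T ∧ D p.1 p.2} → {e // e ∈ edgesIn H T} :=
            fun p => ⟨s(p.1.1, p.1.2), by
              simp only [edgesIn, Finset.mem_filter, Finset.mem_univ, true_and]
              refine ⟨?_, ?_⟩
              · exact (⟨(Finset.mem_filter.1 p.2.1).2, (Finset.mem_filter.1 p.2.2.1).2,
                  Or.inl p.2.2.2⟩ : H.Adj p.1.1 p.1.2)
              · intro v hv
                rcases Sym2.mem_iff.1 hv with rfl | rfl
                · exact p.2.1
                · exact p.2.2.1⟩
          refine Nat.card_le_card_of_surjective f ?_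
          rintro ⟨e, he⟩
          induction e using Sym2.ind with
          | _ x y =>
          simp only [edgesIn, Finset.mem_filter, Finset.mem_univ, true_and] at he
          have hx := he.2 x (Sym2.mem_mk_left _ _)
          have hy := he.2 y (Sym2.mem_mk_right _ _)
          rcases (he.1 : H.Adj x y).2.2 with h | h
          · exact ⟨⟨(x, y), hx, hy, h⟩, rfl⟩
          · exact ⟨⟨(y, x), hy, hx, h⟩, Subtype.ext Sym2.eq_swap⟩
        omega
      · by_cases h5 : T.card = 0
        · have h6 : edgesIn H T = ∅ := by
            rw [Finset.card_eq_zero] at h5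
            rw [Finset.eq_empty_iff_forall_notMem]
            intro e he
            simp only [edgesIn, Finset.mem_filter, Finset.mem_univ, true_and] at he
            induction e using Sym2.ind with
            | _ x y =>
            have hx := he.2 x (Sym2.mem_mk_left _ _)
            rw [h5] at hx
            simp at hx
          rw [h6, Finset.card_empty]
          omega
        · have h5 : T.card = 1 := by omega
          obtain ⟨a, ha⟩ := Finset.card_eq_one.1 h5
          have h6 : edgesIn H T = ∅ := by
            rw [Finset.eq_empty_iff_forall_notMem]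
            intro e he
            simp only [edgesIn, Finset.mem_filter, Finset.mem_univ, true_and] at he
            induction e using Sym2.ind with
            | _ x y =>
            have hx := he.2 x (Sym2.mem_mk_left _ _)
            have hy := he.2 y (Sym2.mem_mk_right _ _)
            rw [ha, Finset.mem_singleton] at hx hy
            have hadj : H.Adj x y := he.1
            exact hadj.ne (hx.trans hy.symm)
          rw [h6, Finset.card_empty]
          omega
  obtain ⟨c, hc⟩ := Pool.Agent.H13.TC.planar_switch_le (sparse_main V) G H hHG (isPlanar_tor hG) hHsp o ho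
  let φ : V → Fin 3 := fun v => if v ∈ X then 2 else if c v = 0 then 0 else 1
  have hφ2 : ∀ v, φ v = 2 ↔ v ∈ X := by
    intro v
    by_cases h : v ∈ X
    · simp [φ, h]
    · simp only [φ, h, if_false, iff_false]
      split_ifs <;> decide
  have hφc : ∀ u v, u ∉ X → v ∉ X → (φ u = φ v ↔ c u = c v) := by
    intro u v hu hv
    simp only [φ, hu, hv, if_false]
    rcases zmod2_cases (c u) with h1 | h1 <;> rcases zmod2_cases (c v) with h2 | h2 <;>
      simp [h1, h2]
  refine ⟨φ, ⟨?_, ?_⟩, hφ2⟩
  · intro m v hcyc hmono
    have hm := hcyc.1
    by_cases h0 : v 0 ∈ X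
    · refine hX1 m v hcyc (fun t ht => ?_)
      rw [← hφ2, hmono t ht 0 (by omega), hφ2]
      exact h0
    · have hall : ∀ t < m, v t ∉ X := by
        intro t ht h
        apply h0
        rw [← hφ2, hmono 0 (by omega) t ht, hφ2]
        exact h
      have hstep : ∀ s t, s < m → t < m → D (v s) (v t) →
          (H.Adj (v s) (v t) ∧ o (v s) (v t) + c (v s) + c (v t) = 1) := by
        intro s t hs ht h
        refine ⟨⟨hall s hs, hall t ht, Or.inl h⟩, ?_⟩
        rw [ho1 _ _ h, (hφc _ _ (hall s hs) (hall t ht)).1 (hmono s hs t ht), add_assoc,
          CharTwo.add_self_eq_zero, add_zero]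
      exact hc (v 0) (transGen_of_cycle _ hcyc
        (fun t ht => hstep t (t + 1) (by omega) ht (hcyc.2.2.1 t ht))
        (hstep (m - 1) 0 (by omega) (by omega) hcyc.2.2.2))
  · intro m v i j hij hcyc halt
    have hm := hcyc.1
    obtain ⟨hev, hcol⟩ := halt
    -- consecutive vertices have different colours
    have hodd : ¬ Even (m - 1) := by
      rw [Nat.not_even_iff_odd]
      obtain ⟨k, rfl⟩ := hev
      exact ⟨k - 1, by omega⟩
    by_cases h2 : i = 2 ∨ j = 2
    · refine hX2 m v hcyc hev (fun t ht => ?_)
      rw [← hφ2, ← hφ2, hcol t (by omega), hcol (t + 1) ht]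
      rcases h2 with rfl | rfl
      · by_cases het : Even t
        · have : ¬ Even (t + 1) := by
            rw [Nat.even_add_one]
            exact fun h => h het
          simp only [het, this, if_true, if_false, true_iff]
          exact fun h => hij h.symm
        · have : Even (t + 1) := by
            rw [Nat.even_add_one]
            exact het
          simp only [het, this, if_true, if_false, not_true, iff_false]
          exact fun h => hij h.symm
      · by_cases het : Even t
        · have : ¬ Even (t + 1) := by
            rw [Nat.even_add_one]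
            exact fun h => h het
          simp only [het, this, if_true, if_false, not_true, iff_false]
          exact hij
        · have : Even (t + 1) := by
            rw [Nat.even_add_one]
            exact het
          simp only [het, this, if_true, if_false, true_iff]
          exact hij
    · push Not at h2
      have hall : ∀ t < m, v t ∉ X := by
        intro t ht
        rw [← hφ2, hcol t ht]
        split_ifs
        · exact h2.1
        · exact h2.2
      have hstep : ∀ s t, s < m → t < m → φ (v s) ≠ φ (v t) → D (v s) (v t) →
          (H.Adj (v t) (v s) ∧ o (v t) (v s) + c (v t) + c (v s) = 1) := by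
        intro s t hs ht hne' h
        refine ⟨⟨hall t ht, hall s hs, Or.inr h⟩, ?_⟩
        have h3 : c (v t) ≠ c (v s) := fun h4 =>
          hne' ((hφc _ _ (hall s hs) (hall t ht)).2 h4.symm)
        rw [ho0 _ _ h, zero_add]
        exact zmod2_add_eq_one h3
      refine hc (v 0) (transGen_of_cycle_rev _ hcyc
        (fun t ht => hstep t (t + 1) (by omega) ht ?_ (hcyc.2.2.1 t ht))
        (hstep (m - 1) 0 (by omega) (by omega) ?_ hcyc.2.2.2))
      · rw [hcol t (by omega), hcol (t + 1) ht]
        by_cases het : Even t
        · have : ¬ Even (t + 1) := by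
            rw [Nat.even_add_one]
            exact fun h => h het
          simp only [het, this, if_true, if_false]
          exact hij
        · have : Even (t + 1) := by
            rw [Nat.even_add_one]
            exact het
          simp only [het, this, if_true, if_false]
          exact fun h => hij h.symm
      · rw [hcol (m - 1) (by omega), hcol 0 (by omega)]
        simp only [hodd, Even.zero, if_true, if_false]
        exact fun h => hij h.symm

end Pool.Agent.Results.MP_da50b6_co.SparsePlanar
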